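import Pool.Agent.W80.EC.Fin

/-!
The Hardy-Littlewood formula with its exact constant for almost all quadratic polynomials.

Let `ε > 0` and `U` be given. For `H` large, all integer triples `(a, b, c)` with `1 ≤ a ≤ H` and
`|b|, |c| ≤ H`, apart from at most `H ^ 3 / (log H) ^ U` of them, have the following property. If the
triple is admissible (`gcd (a, b, c) = 1`, the discriminant is not a square, `a + b` and `c` are not
both even), then the partial products of the constant `C (a, b, c)` of Hardy and Littlewood converge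
to a positive number, and

* for all `K` with `H ^ ε ≤ K ≤ H / (log H) ^ B` simultaneously the number of `m` in `[1, K]` for
  which `a m ^ 2 + b m + c` is prime equals the singular series (the product of the factor `1` or `2`
  at the prime `2`, of `C (a, b, c)` and of the factors `p / (p - 1)` at the odd primes dividing `a`
  and `b`) times the sum of `1 / log (a m ^ 2 + b m + c)`, up to a relative error `(log H) ^ (- U)`;
* for all real `x` with `H ^ (1 + ε) ≤ x ≤ H ^ 3 / (log H) ^ B` simultaneously the number of `m` with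
  `a m ^ 2 + b m + c` prime and at most `x` equals the main term of the conjecture, up to a relative
  error `100 / log x`.
-/

set_option autoImplicit false

namespace Pool.Agent.Results.MP_a1177c_nt.AlmostAllExactConstant

open Finset

theorem result (ε : ℝ) (hε : 0 < ε) (U : ℕ) : ∃ B H0 : ℕ, ∀ H : ℕ, H0 ≤ H →
    ∃ Bad : Finset (ℤ × ℤ × ℤ), (Bad.card : ℝ) ≤ (H : ℝ) ^ 3 / Real.log H ^ U ∧
      ∀ a b c : ℤ, 1 ≤ a → a ≤ H → |b| ≤ H → |c| ≤ H → (a, b, c) ∉ Bad →
        Int.gcd (Int.gcd a b : ℤ) c = 1 → ¬ IsSquare (b ^ 2 - 4 * a * c) →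
        ¬ (Even (a + b) ∧ Even c) →
        ∃ C : ℝ, 0 < C ∧
          Filter.Tendsto (fun N : ℕ => ∏ p ∈ (Finset.range N).filter
              (fun p : ℕ => Nat.Prime p ∧ 2 < p ∧ ¬ ((p : ℤ) ∣ a)),
            (1 - ((jacobiSym (b ^ 2 - 4 * a * c) p : ℤ) : ℝ) / ((p : ℝ) - 1)))
            Filter.atTop (nhds C) ∧
          (∀ K : ℕ, (H : ℝ) ^ ε ≤ K → (K : ℝ) * Real.log H ^ B ≤ H →
            |(((Icc 1 K).filter (fun m : ℕ =>
                Nat.Prime (Int.toNat (a * (m : ℤ) ^ 2 + b * (m : ℤ) + c)))).card : ℝ) -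
              (if Even (a + b) then (2 : ℝ) else 1) * C *
              (∏ p ∈ (Nat.primeFactors (Int.gcd a b)).filter (fun p : ℕ => 2 < p),
                ((p : ℝ) / ((p : ℝ) - 1))) *
              ∑ m ∈ (Icc 1 K).filter (fun m : ℕ => 2 ≤ a * (m : ℤ) ^ 2 + b * (m : ℤ) + c),
                1 / Real.log ((a * (m : ℤ) ^ 2 + b * (m : ℤ) + c : ℤ) : ℝ)| ≤
            ((if Even (a + b) then (2 : ℝ) else 1) * C *
              (∏ p ∈ (Nat.primeFactors (Int.gcd a b)).filter (fun p : ℕ => 2 < p),
                ((p : ℝ) / ((p : ℝ) - 1))) *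
              ∑ m ∈ (Icc 1 K).filter (fun m : ℕ => 2 ≤ a * (m : ℤ) ^ 2 + b * (m : ℤ) + c),
                1 / Real.log ((a * (m : ℤ) ^ 2 + b * (m : ℤ) + c : ℤ) : ℝ)) / Real.log H ^ U) ∧
          (∀ x : ℝ, (H : ℝ) ^ (1 + ε) ≤ x → x * Real.log H ^ B ≤ (H : ℝ) ^ 3 →
            |(Nat.card {m : ℕ | Nat.Prime (Int.toNat (a * (m : ℤ) ^ 2 + b * (m : ℤ) + c)) ∧
                ((a * (m : ℤ) ^ 2 + b * (m : ℤ) + c : ℤ) : ℝ) ≤ x} : ℝ) -
              (if Even (a + b) then (2 : ℝ) else 1) * C / Real.sqrt (a : ℝ) *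
                (Real.sqrt x / Real.log x) *
                ∏ p ∈ (Nat.primeFactors (Int.gcd a b)).filter (fun p : ℕ => 2 < p),
                  ((p : ℝ) / ((p : ℝ) - 1))| ≤
            (100 / Real.log x) * ((if Even (a + b) then (2 : ℝ) else 1) * C / Real.sqrt (a : ℝ) *
                (Real.sqrt x / Real.log x) *
                ∏ p ∈ (Nat.primeFactors (Int.gcd a b)).filter (fun p : ℕ => 2 < p),
                  ((p : ℝ) / ((p : ℝ) - 1)))) :=
  Pool.Agent.W80.EC.final ε hε U

end Pool.Agent.Results.MP_a1177c_nt.AlmostAllExactConstant
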