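import Mathlib
import Pool.Agent.W99.EvenFactor

set_option autoImplicit false

/-!
# Quadratics `n ^ 2 + D`: almost prime values with an even number of prime factors in a given set

Let `D ≡ 1 (mod 4)` be positive and not divisible by `3`, and let `m = (D + 1) / 2`.  The proof rests
on the identity `(X ^ 2 + D) (Y ^ 2 + D) = m ^ 2 (Z ^ 2 + D)`, where `X = m x`,
`Y = 2 m ^ 2 x ^ 2 + m - 1` and `Z = x (2 m ^ 2 x ^ 2 + 3 m - 2)`, and where `Y ^ 2 + D` is divisible
by `m ^ 2`.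
-/

namespace Pool.Agent.Results.MP_a1177c_nt.EvenFactorCount

open Finset

lemma pow_le_prod (t : ℝ) (ht : 0 ≤ t) (l : List ℕ) (h : ∀ p ∈ l, t ≤ (p : ℝ)) :
    t ^ l.length ≤ ((l.prod : ℕ) : ℝ) := by
  induction l with
  | nil => simp
  | cons p l ih =>
    rw [List.length_cons, List.prod_cons, Nat.cast_mul, pow_succ, mul_comm]
    exact mul_le_mul (h p (List.mem_cons_self ..)) (ih fun q hq => h q (List.mem_cons_of_mem _ hq))
      (by positivity) (Nat.cast_nonneg _)

/-- **Main result.** Let `D ≡ 1 (mod 4)` be a positive integer not divisible by `3`.  For all large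
`X`:

(1) for every property `E` of positive integers such that `E (a b)` holds whenever neither `E a` nor
`E b` holds, and such that `E a` implies `E (m ^ 2 a)`, where `m = (D + 1) / 2`, at least
`X ^ (1/3) / (log X) ^ 140` of the even `n ≤ X` are such that `n ^ 2 + D` has the property `E` and is
of the form `d ^ 2 u` with `d = 1` or `d = m` and with `u` having at most `16000` prime factors, all
of them larger than `X ^ (1/8000)`;

(2) in particular, for every set `S` of primes, this holds with the property that the number of prime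
factors of `n ^ 2 + D` belonging to `S`, counted with multiplicity, is even. -/
theorem result (D : ℕ) (h4 : D % 4 = 1) (h3 : D % 3 ≠ 0) : ∃ X₀ : ℕ, ∀ X : ℕ, X₀ ≤ X →
    (∀ E : ℕ → Prop, (∀ a b : ℕ, a ≠ 0 → b ≠ 0 → ¬ E a → ¬ E b → E (a * b)) →
      (∀ a : ℕ, a ≠ 0 → E a → E (((D + 1) / 2) ^ 2 * a)) →
      (X : ℝ) ^ ((1 : ℝ) / 3) / Real.log X ^ 140 ≤
        (({n : ℕ | n ≤ X ∧ 0 < n ∧ Even n ∧
          (∃ d u : ℕ, (d = 1 ∨ d = (D + 1) / 2) ∧ n ^ 2 + D = d ^ 2 * u ∧
            (∀ p : ℕ, p.Prime → p ∣ u → (X : ℝ) ^ ((1 : ℝ) / 8000) < p) ∧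
            u.primeFactorsList.length ≤ 16000) ∧
          E (n ^ 2 + D)} : Set ℕ).ncard : ℝ)) ∧
    (∀ S : Set ℕ,
      (X : ℝ) ^ ((1 : ℝ) / 3) / Real.log X ^ 140 ≤
        (({n : ℕ | n ≤ X ∧ 0 < n ∧ Even n ∧
          (∃ d u : ℕ, (d = 1 ∨ d = (D + 1) / 2) ∧ n ^ 2 + D = d ^ 2 * u ∧
            (∀ p : ℕ, p.Prime → p ∣ u → (X : ℝ) ^ ((1 : ℝ) / 8000) < p) ∧
            u.primeFactorsList.length ≤ 16000) ∧
          Even ((n ^ 2 + D).primeFactorsList.countP
            (fun p => @decide (p ∈ S) (Classical.propDecidable _)))} : Set ℕ).ncard : ℝ)) := by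
  classical
  obtain ⟨m, hm⟩ : ∃ m, m = (D + 1) / 2 := ⟨_, rfl⟩
  have hD : D = 2 * m - 1 := by omega
  have hm2 : (D + 1) / 2 = m := hm.symm
  have hodd : Odd m := by
    rw [Nat.odd_iff]
    omega
  have hm0 : 0 < m := hodd.pos
  have hm3 : m % 3 ≠ 2 := by omega
  obtain ⟨M, hM⟩ : ∃ M, Pool.Agent.W99.EF.Adm m M := by
    by_cases h7 : m % 7 = 3
    · exact ⟨14, hm3, Or.inr ⟨rfl, h7⟩⟩
    · exact ⟨2, hm3, Or.inl ⟨rfl, h7⟩⟩
  obtain ⟨X₀, h⟩ := Pool.Agent.W99.EF.main hM hodd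
  obtain ⟨X₁, hX₁⟩ := Filter.eventually_atTop.1
    (Pool.Agent.H505R2.ev_ge (show (0 : ℝ) < 1 / 8000 by norm_num) 2)
  rw [hm2]
  have key : ∀ X : ℕ, max X₀ (max X₁ (D + 2)) ≤ X → ∀ E : ℕ → Prop,
      (∀ a b : ℕ, a ≠ 0 → b ≠ 0 → ¬ E a → ¬ E b → E (a * b)) →
      (∀ a : ℕ, a ≠ 0 → E a → E (m ^ 2 * a)) →
      (X : ℝ) ^ ((1 : ℝ) / 3) / Real.log X ^ 140 ≤
        (({n : ℕ | n ≤ X ∧ 0 < n ∧ Even n ∧
          (∃ d u : ℕ, (d = 1 ∨ d = m) ∧ n ^ 2 + D = d ^ 2 * u ∧
            (∀ p : ℕ, p.Prime → p ∣ u → (X : ℝ) ^ ((1 : ℝ) / 8000) < p) ∧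
            u.primeFactorsList.length ≤ 16000) ∧
          E (n ^ 2 + D)} : Set ℕ).ncard : ℝ) := by
    intro X hX E hE hsq
    have h0 : X₀ ≤ X := le_trans (le_max_left _ _) hX
    have h1 : X₁ ≤ X := le_trans (le_trans (le_max_left _ _) (le_max_right _ _)) hX
    have h2 : D + 2 ≤ X := le_trans (le_trans (le_max_right _ _) (le_max_right _ _)) hX
    have hX2 : (D : ℝ) + 2 ≤ X := by exact_mod_cast h2
    have hD0 : (0 : ℝ) ≤ D := Nat.cast_nonneg _
    have ht : 2 ≤ (X : ℝ) ^ ((1 : ℝ) / 8000) := hX₁ X h1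
    set t : ℝ := (X : ℝ) ^ ((1 : ℝ) / 8000) with htd
    have ht16 : t ^ 16000 = (X : ℝ) ^ 2 := by
      rw [htd, ← Real.rpow_natCast, ← Real.rpow_mul (by linarith), ← Real.rpow_natCast]
      congr 1
      norm_num
    have hmain := h E hE hsq X h0
    refine hmain.trans ?_
    rw [Nat.cast_le]
    apply Set.ncard_le_ncard
    · rintro n ⟨a1, a2, a3, ⟨d, u, hd, hdu, hu⟩, a5⟩
      rw [← hD] at hdu a5
      refine ⟨a1, a2, a3, ⟨d, u, hd, hdu, hu, ?_⟩, a5⟩
      have hu0 : u ≠ 0 := by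
        rintro rfl
        rw [mul_zero] at hdu
        have : 0 < n ^ 2 := by positivity
        omega
      by_contra hcon
      push Not at hcon
      have b1 := pow_le_prod t (by linarith) u.primeFactorsList
        (fun p hp => (hu p (Nat.prime_of_mem_primeFactorsList hp)
          (Nat.dvd_of_mem_primeFactorsList hp)).le)
      rw [Nat.prod_primeFactorsList hu0] at b1
      have b2 : t ^ 16001 ≤ t ^ u.primeFactorsList.length :=
        pow_le_pow_right₀ (by linarith) hcon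
      have b3 : t ^ 16001 = (X : ℝ) ^ 2 * t := by rw [pow_succ, ht16]
      have b4 : ((u : ℕ) : ℝ) ≤ (X : ℝ) ^ 2 + D := by
        have c1 : u ≤ n ^ 2 + D := by
          rw [hdu]
          have : 0 < d := by rcases hd with rfl | rfl <;> omega
          exact Nat.le_mul_of_pos_left u (by positivity)
        have c2 : (n : ℝ) ≤ X := by exact_mod_cast a1
        have c3 : (n : ℝ) ^ 2 ≤ (X : ℝ) ^ 2 := pow_le_pow_left₀ (Nat.cast_nonneg _) c2 2
        have c4 : ((u : ℕ) : ℝ) ≤ (n : ℝ) ^ 2 + D := by exact_mod_cast c1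
        linarith
      have b5 : (X : ℝ) ^ 2 * t ≤ (X : ℝ) ^ 2 + D := by
        rw [← b3]
        exact b2.trans (b1.trans b4)
      nlinarith
    · exact (Set.finite_Iic X).subset fun n hn => hn.1
  refine ⟨max X₀ (max X₁ (D + 2)), fun X hX => ⟨key X hX, fun S => ?_⟩⟩
  refine (key X hX (fun a => Even (a.primeFactorsList.countP
    (fun p => @decide (p ∈ S) (Classical.propDecidable _)))) ?_ ?_)
  · intro a b ha hb h1 h2
    rw [(Nat.perm_primeFactorsList_mul ha hb).countP_eq, List.countP_append]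
    rw [Nat.not_even_iff_odd] at h1 h2
    exact h1.add_odd h2
  · intro a ha h1
    rw [(Nat.perm_primeFactorsList_mul (by positivity) ha).countP_eq, List.countP_append, pow_two,
      (Nat.perm_primeFactorsList_mul (by omega) (by omega)).countP_eq, List.countP_append]
    exact (Even.add_self _).add h1

end Pool.Agent.Results.MP_a1177c_nt.EvenFactorCount
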