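import Mathlib
import Pool.Agent.W218.HF.QFinal

/-!
# Prime values of `a m² + b m + c`: the Hardy-Littlewood formula when only `b` varies

The coefficients `a ≥ 1` and `c ≠ 0` are fixed and only the middle coefficient `b ≤ B` varies; `x`
may be as large as `B / (log B)^K`. Since `a m² + b m + c = p` means that `p ≡ c (mod m)` with
complementary divisor `a m + b`, the first moment over `b` comes from the Bombieri-Vinogradov
theorem, with the exact constant; the second moment comes from the sieve; and the infinite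
products `C(a, b, c)` are compared with their cut products for almost all `b` by a second moment
over `b`, a large sieve over the kernels of `b² - 4 a c` together with a gap principle for Pell
equations, and the Siegel-Walfisz theorem.
-/

set_option autoImplicit false

namespace Pool.Agent.Results.MP_a1177c_nt.MiddleCoefficientExact

open Finset Filter Topology

/-- the triple `(a, b, c)` is admissible -/
def Admissible (a b c : ℤ) : Prop :=
  0 < a ∧ (∀ d : ℤ, d ∣ a → d ∣ b → d ∣ c → IsUnit d) ∧ ¬ ((2 : ℤ) ∣ a + b ∧ (2 : ℤ) ∣ c) ∧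
    ¬ IsSquare (b ^ 2 - 4 * a * c)

/-- the number of `1 ≤ m ≤ x` for which `a m² + b m + c` is a (positive) prime -/
def primeCount (a b c : ℤ) (x : ℕ) : ℕ :=
  #((Icc 1 x).filter (fun m : ℕ => (a * (m : ℤ) ^ 2 + b * m + c).toNat.Prime))

/-- `ε = 2` if `a + b` is even and `ε = 1` if `a + b` is odd -/
noncomputable def eps (a b : ℤ) : ℝ := if (2 : ℤ) ∣ a + b then 2 else 1

/-- the product `∏_{p > 2, p ∣ gcd(a, b)} p / (p - 1)` -/
noncomputable def gcdProd (a b : ℤ) : ℝ :=
  ∏ p ∈ (Int.gcd a b).primeFactors.filter (fun p => 2 < p), (p : ℝ) / (p - 1)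

/-- the partial product `∏_{2 < p ≤ z, p ∤ a} (1 - (D / p) / (p - 1))` of `C(a, b, c)`, where
`D = b² - 4 a c` -/
noncomputable def partialC (a b c : ℤ) (z : ℕ) : ℝ :=
  ∏ p ∈ (Icc 3 z).filter (fun p : ℕ => p.Prime ∧ ¬ (p : ℤ) ∣ a),
    (1 - (jacobiSym (b ^ 2 - 4 * a * c) p : ℝ) / (p - 1))

/-- **The Hardy-Littlewood formula on average over the middle coefficient.** There is an exponent
`K` such that for all `a ≥ 1`, `c ≠ 0` and `θ < 1` there are `κ > 0` and `B0` with the following
property. Let `B ≥ B0`, `log B ≤ x` and `x (log B)^K ≤ B`. Then for at least `κ B` of the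
`b ≤ B` the triple `(a, b, c)` is admissible, the product `C(a, b, c)` converges to a number
`C > 0`, and the number of `m ≤ x` with `a m² + b m + c` prime is at least
`θ · ε C ∏_{p > 2, p ∣ gcd(a, b)} p / (p - 1) · x / log (B x)` and at least `κ x / log B`. -/
theorem result : ∃ K : ℕ, ∀ (a : ℕ) (c : ℤ), 1 ≤ a → c ≠ 0 → ∀ θ : ℝ, θ < 1 →
    ∃ κ : ℝ, 0 < κ ∧ ∃ B0 : ℕ, ∀ B : ℕ, B0 ≤ B → ∀ x : ℕ, Real.log B ≤ x →
    x * Real.log B ^ K ≤ B → ∃ S : Finset ℕ, S ⊆ Icc 1 B ∧ κ * B ≤ S.card ∧
      ∀ b ∈ S, Admissible a b c ∧ ∃ C : ℝ, 0 < C ∧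
        Tendsto (fun z => partialC a b c z) atTop (𝓝 C) ∧
        θ * (eps a b * C * gcdProd a b) * x / Real.log (B * x) ≤ primeCount a b c x ∧
        κ * x / Real.log B ≤ primeCount a b c x :=
  Pool.Agent.W218.HF.QFinal.final

end Pool.Agent.Results.MP_a1177c_nt.MiddleCoefficientExact
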